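import Mathlib
import Pool.Agent.H902.CB.Ratio

set_option autoImplicit false

/-!
# Non-speciality for `d ≥ m₁ + m₂ + m₃`: the shape of a minimal counterexample

Multiplicities are sequences `m 0 ≥ m 1 ≥ ...` with `m i = 0` for `i ≥ s`, where `s` is the number of
points; so `m i` is the multiplicity `m_{i+1}` of the problem. A class `(d; m)` is *admissible* if
`m 0 + m 1 + m 2 ≤ d`. The conjecture says that all admissible classes are non-special.

If some admissible class `(d; m)` with `s` points is special, then there is a special admissible class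
`(d'; m')` with `s` points, `d' ≤ d`, `m' j ≤ m j` for all `j ≥ 2` and
* `4 d' ≤ 21 m'₁ + 7`,
* `4 m'₁ ≤ 4 m'₄ + 9 m'₆ + 7`, hence `16 d' ≤ 273 m'₄ + 175`,
* `6 m'₁ ≤ 2 d' + 9 m'₁₀ + 7`
(here with the indices of the problem), and, more precisely, `Remaining m' d'`.

So the conjecture has to be proved only for such classes, in which the ratio of the degree and of the
largest multiplicity is less than `5.25 + 2 / m₁`, for all numbers of points; and the conjecture
for all classes with `m₄ ≤ M` follows from its cases with `16 d ≤ 273 M + 175`.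

Idea: two groups of points are glued along a line (a general one, or one through the point of the
largest multiplicity), see `Pool.Agent.H902.CB.glue_tri`, `Pool.Agent.H902.CB.glue_loc`: the part of
the line which is left over by the first group is filled by the second one. The lemma behind it is
`Pool.Agent.H902.CB.Emp_top`: for almost all points `z` of a line no section of a system of dimension
`t` vanishes at `z` to order `t` on the line. The classes of both groups are again non-special by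
induction, because they become admissible after a quadratic transformation
(`Pool.Agent.H902.CB.M_rect`) or after removing conditions (`Pool.Agent.H902.CB.EI_move`).
-/

namespace Pool.Agent.Results.MP_d3128a_ag.MinimalCounterexamples

open MvPolynomial

/-- The homogeneous ideal of the point `(p 0 : p 1 : 1)`. -/
noncomputable def pt (p : Fin 2 → ℂ) : Ideal (MvPolynomial (Fin 3) ℂ) :=
  Ideal.span {X 0 - C (p 0) * X 2, X 1 - C (p 1) * X 2}

/-- The space of the forms of degree `d` with multiplicity at least `m i` at `P i` for all `i`. -/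
noncomputable def sys {s : ℕ} (P : Fin s → Fin 2 → ℂ) (d : ℕ) (m : ℕ → ℕ) :
    Submodule ℂ (MvPolynomial (Fin 3) ℂ) :=
  homogeneousSubmodule (Fin 3) ℂ d ⊓ Submodule.restrictScalars ℂ (⨅ i : Fin s, pt (P i) ^ (m i))

/-- The linear system is non-special at general points: its projective dimension is
`max {vdim, -1}`, `vdim = (d + 2).choose 2 - 1 - ∑ (m i + 1).choose 2`, for all points in a non-empty
Zariski open set (the complement of `F = 0`). -/
def NonSpecial (s : ℕ) (m : ℕ → ℕ) (d : ℕ) : Prop :=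
  ∃ F : MvPolynomial (Fin s × Fin 2) ℂ, F ≠ 0 ∧ ∀ P : Fin s → Fin 2 → ℂ,
    eval (fun q : Fin s × Fin 2 => P q.1 q.2) F ≠ 0 →
      (Module.finrank ℂ (sys P d m) : ℤ) - 1 =
        max (((d + 2).choose 2 : ℤ) - 1 - ∑ i : Fin s, ((m i + 1).choose 2 : ℤ)) (-1)

/-- Decreasing multiplicities at `s` points, `d ≥ m₁ + m₂ + m₃`. -/
structure Admissible (s : ℕ) (m : ℕ → ℕ) (d : ℕ) : Prop where
  antitone : Antitone m
  zero : ∀ i, s ≤ i → m i = 0
  le : m 0 + m 1 + m 2 ≤ d

/-- The classes which are not reduced to smaller ones by gluing along a line: (`pencil`) for a line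
through the first point, (`line`) for a general line. -/
structure Remaining (m : ℕ → ℕ) (d : ℕ) : Prop where
  pencil : ∀ k, 1 ≤ k → 9 * m (k + 1) + 8 ≤ 4 * m 0 →
    4 * (m 1 + m 2 + m 3) + 9 * m (k + 1) + 8 ≤ 4 * d →
    ((d : ℤ) - m 0 + 1) * (d + m 0 - 4 * m (k + 1) - 2) <
      ∑ i ∈ Finset.range k, (m (i + 1) : ℤ) * (m (i + 1) + 1)
  line : ∀ k, 2 ≤ k → 4 * (m 0 + m 1 + m 2) + 9 * m k + 8 ≤ 4 * d →
    (d : ℤ) * (d + 1) - 2 * (2 * m k + 1) * (d + 1 - m k) <
      ∑ i ∈ Finset.range k, (m i : ℤ) * (m i + 1)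

theorem nonSpecial_iff (s : ℕ) (m : ℕ → ℕ) (d : ℕ) :
    NonSpecial s m d ↔ Pool.Agent.H902.CB.NS s m d := by
  have key : ∀ P : Fin s → Fin 2 → ℂ, ((Module.finrank ℂ (sys P d m) : ℤ) - 1 =
      max (((d + 2).choose 2 : ℤ) - 1 - ∑ i : Fin s, ((m i + 1).choose 2 : ℤ)) (-1)) ↔
      Pool.Agent.H932R3.ExpDim ℂ (fun i : Fin s => m i) P d := by
    intro P
    have h1 : (∑ i : Fin s, ((m i + 1).choose 2 : ℤ)) =
        ((∑ i : Fin s, (m i + 1).choose 2 : ℕ) : ℤ) := by push_cast; rfl
    have h2 : Pool.Agent.H932R3.ExpDim ℂ (fun i : Fin s => m i) P d ↔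
        Module.finrank ℂ (sys P d m) = (d + 2).choose 2 - ∑ i : Fin s, (m i + 1).choose 2 :=
      Iff.rfl
    rw [h1, h2]
    constructor
    · intro h
      omega
    · intro h
      rw [h]
      omega
  unfold NonSpecial Pool.Agent.H902.CB.NS
  constructor
  · rintro ⟨F, hF, h⟩
    exact ⟨F, hF, fun P hP => (key P).1 (h P hP)⟩
  · rintro ⟨F, hF, h⟩
    exact ⟨F, hF, fun P hP => (key P).2 (h P hP)⟩

/-- The numerical properties of the remaining classes. -/
theorem remaining_bounds {s : ℕ} {m : ℕ → ℕ} {d : ℕ} (ha : Admissible s m d)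
    (h : Remaining m d) : 4 * d ≤ 21 * m 0 + 7 ∧ 4 * m 0 ≤ 4 * m 3 + 9 * m 5 + 7 ∧
      16 * d ≤ 273 * m 3 + 175 ∧ 6 * m 0 ≤ 2 * d + 9 * m 9 + 7 := by
  have h1 := Pool.Agent.H902.CB.Red_deg ha.antitone h.line
  have h2 := Pool.Agent.H902.CB.Red_six ha.antitone ha.le h.pencil
  have h3 := Pool.Agent.H902.CB.Red_ten ha.antitone ha.le h.pencil
  have h4 : m 5 ≤ m 3 := ha.antitone (by norm_num)
  omega

theorem result (s : ℕ) (m : ℕ → ℕ) (d : ℕ) (hm : Admissible s m d) (h : ¬ NonSpecial s m d) :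
    ∃ (m' : ℕ → ℕ) (d' : ℕ), Admissible s m' d' ∧ ¬ NonSpecial s m' d' ∧
      d' ≤ d ∧ (∀ j, 2 ≤ j → m' j ≤ m j) ∧ Remaining m' d' ∧
      4 * d' ≤ 21 * m' 0 + 7 ∧ 4 * m' 0 ≤ 4 * m' 3 + 9 * m' 5 + 7 ∧
      16 * d' ≤ 273 * m' 3 + 175 ∧ 6 * m' 0 ≤ 2 * d' + 9 * m' 9 + 7 := by
  rw [nonSpecial_iff] at h
  obtain ⟨m', d', h1, h2, h3, h4, h5, h6, h7, h8⟩ :=
    Pool.Agent.H902.CB.minimal hm.antitone hm.le h
  rw [← nonSpecial_iff] at h8
  have ha : Admissible s m' d' := ⟨h2, h3, h5⟩
  have hr : Remaining m' d' := ⟨h6, h7⟩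
  exact ⟨m', d', ha, h8, h1, h4, hr, remaining_bounds ha hr⟩

end Pool.Agent.Results.MP_d3128a_ag.MinimalCounterexamples
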