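import Mathlib
import Pool.Agent.H879.RV.Adj

set_option autoImplicit false

/-!
# Non-speciality for `d ≥ m₁ + m₂ + m₃` if the class `D - K` has nonnegative virtual dimension

Let `D = d H - ∑ m_i E_i` with `d ≥ m_i + m_j + m_k` for all three indices, for `n ≥ 4` general
points of the complex projective plane. Points of multiplicity one play no role below. Let
`L = (d + 3) H - ∑_{m_i ≥ 2} (m_i + 1) E_i` (that is `D - K` on the blow-up of the other points).

(1) If `L ^ 2 > 0`, `L` has virtual dimension at least `0`, and for some set `S` of at most nine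
indices `L` satisfies `Tail` (for instance `(m_i + 1) ^ 2 ≤ 7 L ^ 2` for `i ∉ S`), then `|D|` is
non-special.

(2) Explicitly: if `∑ (m_i + 1) (m_i + 2) ≤ (d + 3) (d + 6)` and
`3 (m_i + 1) ^ 2 ≤ 7 (d ^ 2 - ∑ m_j ^ 2)` for `i ∉ S`, the sums over the multiplicities at least `2`,
then `|D|` is non-special. The first condition says: the virtual dimension of `|L|` is at least
`0`; in terms of the `s` multiplicities `≥ 2`: `D ^ 2 ≥ 3 K D + 2 (s - 9)`.

(3) In the other direction: if `d ^ 2 + η < ∑ m_i ^ 2` (all multiplicities) with `m_i ^ 2 ≤ 7 η` or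
`m_i ^ 2 ≤ 4 (η + the sum of the squares of the smaller multiplicities outside of S)` for `i ∉ S`,
then `|D|` is empty.

Hence a special system as in Q1 satisfies, with the tenth multiplicity `m`:
`d ^ 2 - ∑ m_i ^ 2 ≥ - m ^ 2 / 7`, and either `D ^ 2 < 3 K D + 2 (s - 9)` or `D ^ 2 < 3 (m + 1) ^ 2 / 7`
(without the points of multiplicity one). The nine largest multiplicities, the number of the points
and the degree are arbitrary.

Proof: by (a variant of) Kawamata-Viehweg / Ramanujam vanishing, proved in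
`Pool/Agent/H879/RV` for the blow-up of the plane at arbitrary distinct points over arbitrary
algebraically closed fields: `h¹ (K + L) = 0` for an effective class `L`, nonnegative on all
irreducible curves, with `L ^ 2 > 0`. Here `L` is effective by its virtual dimension, and
nonnegative on curves by (the proof of) the library result `TenthCoefficient`.
-/

namespace Pool.Agent.Results.MP_d3128a_ag.VirtualAdjoint

open MvPolynomial Pool.Agent.TH167.SHDefs
open Pool.Agent.Q310.FP (Standard)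

/-- The property holds for all `n`-tuples of points outside some hypersurface. -/
def ForGeneral {n : ℕ} (p : (Fin n → Fin 2 → ℂ) → Prop) : Prop :=
  ∃ F : MvPolynomial (Fin n × Fin 2) ℂ, F ≠ 0 ∧ ∀ P : Fin n → Fin 2 → ℂ,
    eval (fun ij : Fin n × Fin 2 => P ij.1 ij.2) F ≠ 0 → p P

/-- The multiplicities of `L`: one more, at the points of multiplicity at least two. -/
def adj {n : ℕ} (m : Fin n → ℕ) : Fin n → ℕ := fun i => if 2 ≤ m i then m i + 1 else 0

/-- The self-intersection of the class `D H - ∑ v i E i`. -/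
def self {n : ℕ} (D : ℕ) (v : Fin n → ℕ) : ℝ := (D : ℝ) ^ 2 - ∑ i, (v i : ℝ) ^ 2

/-- The sum of the squares of the `v j < v i` with `j ∉ S`. -/
noncomputable def below {n : ℕ} (S : Finset (Fin n)) (v : Fin n → ℕ) (i : Fin n) : ℝ :=
  ∑ j, if j ∉ S ∧ v j < v i then (v j : ℝ) ^ 2 else 0

/-- The sum of the squares of the `v j ≥ v i` with `j ∉ S`. -/
noncomputable def atLeast {n : ℕ} (S : Finset (Fin n)) (v : Fin n → ℕ) (i : Fin n) : ℝ :=
  ∑ j, if j ∉ S ∧ v i ≤ v j then (v j : ℝ) ^ 2 else 0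

/-- The condition on the multiplicities `v i` outside of a set `S` of at most nine indices. -/
def Tail {n : ℕ} (S : Finset (Fin n)) (D : ℕ) (v : Fin n → ℕ) : Prop :=
  S.card ≤ 9 ∧ ∀ i, i ∉ S → (v i : ℝ) ^ 2 ≤ 7 * self D v ∨
    (v i : ℝ) ^ 2 ≤ 4 * (self D v + below S v i) ∨
    (S.card = 9 ∧ 2 * (v i : ℝ) * atLeast S v i ≤ D * (self D v + below S v i))

theorem below_eq {n : ℕ} (S : Finset (Fin n)) (v : Fin n → ℕ) (i : Fin n) :
    below S v i = Pool.Agent.K4H28.TC.below S (fun i => (v i : ℝ)) i := by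
  unfold below Pool.Agent.K4H28.TC.below
  refine Finset.sum_congr rfl fun j _ => ?_
  by_cases hj : j ∉ S ∧ v j < v i
  · have h2 : (v j : ℝ) < v i := by exact_mod_cast hj.2
    rw [if_pos hj, if_pos ⟨hj.1, h2⟩]
  · have h2 : ¬ (j ∉ S ∧ (v j : ℝ) < v i) := fun h' => hj ⟨h'.1, by
      have h3 := h'.2
      exact_mod_cast h3⟩
    rw [if_neg hj, if_neg h2]

theorem tail_iff {n : ℕ} {S : Finset (Fin n)} {D : ℕ} {v : Fin n → ℕ} (h : Tail S D v) :
    H879.RV.Tail S (D : ℝ) (fun i => (v i : ℝ)) := by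
  refine ⟨h.1, fun i hi => ?_⟩
  have e2 : atLeast S v i = Pool.Agent.K4H28.TC.above S (fun i => (v i : ℝ)) i := by
    unfold atLeast Pool.Agent.K4H28.TC.above
    refine Finset.sum_congr rfl fun j _ => ?_
    by_cases hj : j ∉ S ∧ v i ≤ v j
    · have h2 : (v i : ℝ) ≤ v j := by exact_mod_cast hj.2
      rw [if_pos hj, if_pos ⟨hj.1, h2⟩]
    · have h2 : ¬ (j ∉ S ∧ (v i : ℝ) ≤ v j) := fun h' => hj ⟨h'.1, by
        have h3 := h'.2
        exact_mod_cast h3⟩
      rw [if_neg hj, if_neg h2]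
  have h1 := h.2 i hi
  rw [below_eq, e2] at h1
  exact h1

theorem adj_eq {n : ℕ} (m : Fin n → ℕ) : H879.RV.up (H879.Pos.large m 1) = adj m := by
  funext i
  unfold H879.RV.up Pool.Agent.H879.Pos.large adj
  by_cases h : 2 ≤ m i
  · rw [if_pos h, if_pos (show 1 < m i by omega), if_neg (by omega)]
  · rw [if_neg h, if_neg (show ¬ 1 < m i by omega), if_pos rfl]

theorem result (n : ℕ) (hn : 4 ≤ n) (d : ℕ) (m : Fin n → ℕ) (hs : Standard d m)
    (S : Finset (Fin n)) (hS : S.card ≤ 9) :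
    (∑ i, adj m i ^ 2 < (d + 3) ^ 2 → ∑ i, adj m i * (adj m i + 1) ≤ (d + 3) * (d + 6) →
      Tail S (d + 3) (adj m) → ForGeneral fun P => dimL P d m = max (virtdim d m) (-1)) ∧
    (∑ i, (if 2 ≤ m i then (m i + 1) * (m i + 2) else 0) ≤ (d + 3) * (d + 6) →
      (∀ i, i ∉ S → 2 ≤ m i →
        3 * (m i + 1) ^ 2 + 7 * ∑ j, (if 2 ≤ m j then m j ^ 2 else 0) ≤ 7 * d ^ 2) →
      ForGeneral fun P => dimL P d m = max (virtdim d m) (-1)) ∧
    (∀ η : ℝ, 0 ≤ η → (∀ i, i ∉ S → (m i : ℝ) ^ 2 ≤ 7 * η ∨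
        (m i : ℝ) ^ 2 ≤ 4 * (η + below S m i)) →
      (d : ℝ) ^ 2 + η < ∑ i, (m i : ℝ) ^ 2 → ForGeneral fun P => dimL P d m = -1) := by
  refine ⟨fun h1 h2 h3 => ?_, fun h1 h2 => ?_, fun η hη h1 h2 => ?_⟩
  · have h4 := tail_iff h3
    rw [Nat.cast_add, Nat.cast_ofNat] at h4
    refine (H879.RV.ge_adj (T := S) hn hs (by rw [adj_eq]; exact h4) (by rw [adj_eq]; exact h1)
      ?_).general
    rw [adj_eq, ← Finset.sum_add_distrib]
    have e1 : ∑ i, (adj m i ^ 2 + adj m i) = ∑ i, adj m i * (adj m i + 1) :=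
      Finset.sum_congr rfl fun i _ => by ring
    have e2 : (d + 4) * (d + 5) = (d + 3) * (d + 6) + 2 := by ring
    rw [e1, e2]
    omega
  · exact (H879.RV.ge_clean hn hs hS h1 h2).general
  · obtain ⟨r, rfl⟩ : ∃ r, n = r + 4 := ⟨n - 4, by omega⟩
    have h3 := H879.RV.crk_empty hs (S := S) hη hS (fun i hi => by
      rw [← below_eq]
      exact h1 i hi) h2
    have h4 := Pool.Agent.H879.Pos.crk_lower d m
    rw [h3, zero_add] at h4
    have h5 := (H879.RV.ge_of_crk (d := d) (w := m) (by rw [h3]; omega)).general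
    obtain ⟨F, hF, h6⟩ := h5
    refine ⟨F, hF, fun P hP => ?_⟩
    show dimL P d m = -1
    rw [h6 P hP]
    unfold virtdim
    have h7 : ((d + 2).choose 2 : ℤ) ≤ ∑ i, (((m i + 1).choose 2 : ℕ) : ℤ) := by
      exact_mod_cast h4
    omega

end Pool.Agent.Results.MP_d3128a_ag.VirtualAdjoint
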